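import Mathlib

set_option autoImplicit false

/-!
# The composition of two indestructible Blaschke products is indestructible

The key fact is that `B ∘ C` is a Blaschke product for every Blaschke product `B` and every
indestructible Blaschke product `C`: if `B` has the zeros `a_n`, then `B ∘ C` is the product of the
Blaschke products `b_{a_n} ∘ C` (`b_a` the Blaschke factor of `a`, an automorphism of the disk), and
the zeros of all these products together satisfy the Blaschke condition.  If now `B` and `C` are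
indestructible and `T` is an automorphism of the disk, then `T ∘ (B ∘ C) = (T ∘ B) ∘ C` is a
Blaschke product by the key fact applied to `T ∘ B` and `C`.
-/

open Filter Topology
open scoped ComplexConjugate

namespace Pool.Agent.Results.MP_4d1c53_an.IndestructibleComposition

/-- The Blaschke factor `(|a| / a) (a - z) / (1 - conj a z)` of `a ≠ 0`, `|a| < 1`. -/
noncomputable def factor (a z : ℂ) : ℂ := ((‖a‖ : ℂ) / a) * ((a - z) / (1 - conj a * z))

/-- `f` is (on the open unit disk) a Blaschke product: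
`f z = e^{iθ} z^m ∏_n (|a_n| / a_n) (a_n - z) / (1 - conj a_n z)` for `|z| < 1`, where `θ` is real,
`m ≥ 0` is an integer and `(a_n)_{n < N}`, `N ≤ ∞`, is a finite or infinite sequence of points of
the disk different from `0` with `∑ (1 - |a_n|) < ∞`; moreover `m ≠ 0` or `N ≠ 0`, that is `f` is
not constant. -/
def IsBlaschke (f : ℂ → ℂ) : Prop :=
  ∃ (θ : ℝ) (m : ℕ) (N : ℕ∞) (a : {n : ℕ // (n : ℕ∞) < N} → ℂ),
    (∀ n, a n ≠ 0 ∧ ‖a n‖ < 1) ∧ (Summable fun n => 1 - ‖a n‖) ∧ (m ≠ 0 ∨ N ≠ 0) ∧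
    ∀ z : ℂ, ‖z‖ < 1 →
      f z = Complex.exp (θ * Complex.I) * z ^ m * ∏' n, factor (a n) z

/-- The conformal automorphism `w ↦ e^{iφ} (w - a) / (1 - conj a w)` of the unit disk
(`φ` real, `|a| < 1`). -/
noncomputable def auto (φ : ℝ) (a w : ℂ) : ℂ :=
  Complex.exp (φ * Complex.I) * ((w - a) / (1 - conj a * w))

/-- `B` is an indestructible Blaschke product: a Blaschke product such that `T ∘ B` is a Blaschke
product for every conformal automorphism `T` of the unit disk. -/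
def IsIndestructible (B : ℂ → ℂ) : Prop :=
  IsBlaschke B ∧ ∀ (φ : ℝ) (a : ℂ), ‖a‖ < 1 → IsBlaschke fun z => auto φ a (B z)

/-! ### Blaschke factors -/

lemma one_sub_ne {a z : ℂ} (ha : ‖a‖ < 1) (hz : ‖z‖ < 1) : 1 - conj a * z ≠ 0 := by
  intro h
  have h1 : conj a * z = 1 := (sub_eq_zero.1 h).symm
  have h2 : ‖a‖ * ‖z‖ = 1 := by
    rw [← Complex.norm_conj a, ← norm_mul, h1, norm_one]
  have := norm_nonneg a
  have := norm_nonneg z
  nlinarith

lemma norm_auto_aux {a w : ℂ} (ha : ‖a‖ < 1) (hw : ‖w‖ < 1) :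
    ‖(w - a) / (1 - conj a * w)‖ < 1 := by
  have hne := one_sub_ne ha hw
  rw [norm_div, div_lt_one (norm_pos_iff.2 hne)]
  have h : ‖w - a‖ ^ 2 < ‖1 - conj a * w‖ ^ 2 := by
    have e : ‖1 - conj a * w‖ ^ 2 - ‖w - a‖ ^ 2 = (1 - ‖a‖ ^ 2) * (1 - ‖w‖ ^ 2) := by
      rw [← Complex.normSq_eq_norm_sq, ← Complex.normSq_eq_norm_sq, ← Complex.normSq_eq_norm_sq,
        ← Complex.normSq_eq_norm_sq]
      simp only [Complex.normSq_apply, Complex.sub_re, Complex.sub_im, Complex.one_re,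
        Complex.one_im, Complex.mul_re, Complex.mul_im, Complex.conj_re, Complex.conj_im]
      ring
    have h1 : 0 < (1 - ‖a‖ ^ 2) * (1 - ‖w‖ ^ 2) := by
      have := norm_nonneg a
      have := norm_nonneg w
      apply mul_pos <;> nlinarith
    linarith
  exact lt_of_pow_lt_pow_left₀ 2 (norm_nonneg _) h

lemma norm_auto {φ : ℝ} {a w : ℂ} (ha : ‖a‖ < 1) (hw : ‖w‖ < 1) : ‖auto φ a w‖ < 1 := by
  unfold auto
  rw [norm_mul, Complex.norm_exp_ofReal_mul_I, one_mul]
  exact norm_auto_aux ha hw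

lemma factor_eq_auto {a : ℂ} (ha : a ≠ 0) : ∃ φ : ℝ, ∀ w, factor a w = auto φ a w := by
  have hna : (‖a‖ : ℂ) ≠ 0 := by exact_mod_cast norm_ne_zero_iff.2 ha
  refine ⟨Complex.arg (-((‖a‖ : ℂ) / a)), fun w => ?_⟩
  have h1 : ‖-((‖a‖ : ℂ) / a)‖ = 1 := by
    rw [norm_neg, norm_div, Complex.norm_real, norm_norm, div_self (norm_ne_zero_iff.2 ha)]
  have h2 : Complex.exp (Complex.arg (-((‖a‖ : ℂ) / a)) * Complex.I) = -((‖a‖ : ℂ) / a) := by
    have := Complex.norm_mul_exp_arg_mul_I (-((‖a‖ : ℂ) / a))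
    rwa [h1, Complex.ofReal_one, one_mul] at this
  unfold factor auto
  rw [h2]
  ring

lemma norm_factor {a z : ℂ} (h0 : a ≠ 0) (ha : ‖a‖ < 1) (hz : ‖z‖ < 1) : ‖factor a z‖ < 1 := by
  obtain ⟨φ, h⟩ := factor_eq_auto h0
  rw [h]
  exact norm_auto ha hz

lemma factor_zero {a : ℂ} (h0 : a ≠ 0) : factor a 0 = (‖a‖ : ℂ) := by
  unfold factor
  rw [sub_zero, mul_zero, sub_zero, div_one, div_mul_cancel₀ _ h0]

lemma norm_one_sub_factor {a z : ℂ} (h0 : a ≠ 0) (ha : ‖a‖ < 1) (hz : ‖z‖ < 1) :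
    ‖1 - factor a z‖ ≤ (1 - ‖a‖) * ((1 + ‖z‖) / (1 - ‖z‖)) := by
  have hne := one_sub_ne ha hz
  have hna : 0 < ‖a‖ := norm_pos_iff.2 h0
  have h1z : 0 < 1 - ‖z‖ := by linarith
  have e : 1 - factor a z =
      ((1 - ‖a‖ : ℝ) : ℂ) * (((a + (‖a‖ : ℂ) * z) / a) / (1 - conj a * z)) := by
    unfold factor
    have hc : conj a * a = (‖a‖ : ℂ) ^ 2 := by
      rw [mul_comm, Complex.mul_conj, Complex.normSq_eq_norm_sq]
      push_cast
      ring
    have h3 : (1 - conj a * z) * a = a - (‖a‖ : ℂ) ^ 2 * z := by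
      rw [← hc]; ring
    have h4 : (1 - conj a * z) * a ≠ 0 := mul_ne_zero hne h0
    have h5 : ((‖a‖ : ℂ) / a) * ((a - z) / (1 - conj a * z)) =
        ((‖a‖ : ℂ) * (a - z)) / ((1 - conj a * z) * a) := by
      rw [div_mul_div_comm, mul_comm a (1 - conj a * z)]
    have h6 : ((1 - ‖a‖ : ℝ) : ℂ) * (((a + (‖a‖ : ℂ) * z) / a) / (1 - conj a * z)) =
        ((1 - (‖a‖ : ℂ)) * (a + (‖a‖ : ℂ) * z)) / ((1 - conj a * z) * a) := by
      rw [div_div, mul_comm a (1 - conj a * z), ← mul_div_assoc]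
      push_cast
      rfl
    rw [h5, h6, eq_div_iff h4, sub_mul, div_mul_cancel₀ _ h4, h3]
    ring
  rw [e, norm_mul, Complex.norm_real, Real.norm_of_nonneg (by linarith), norm_div, norm_div]
  refine mul_le_mul_of_nonneg_left ?_ (by linarith)
  have h4 : ‖a + (‖a‖ : ℂ) * z‖ / ‖a‖ ≤ 1 + ‖z‖ := by
    rw [div_le_iff₀ hna]
    calc ‖a + (‖a‖ : ℂ) * z‖ ≤ ‖a‖ + ‖(‖a‖ : ℂ) * z‖ := norm_add_le _ _
      _ = (1 + ‖z‖) * ‖a‖ := by rw [norm_mul, Complex.norm_real, norm_norm]; ring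
  have h5 : 1 - ‖z‖ ≤ ‖1 - conj a * z‖ := by
    have h6 : ‖(1 : ℂ)‖ - ‖conj a * z‖ ≤ ‖1 - conj a * z‖ := norm_sub_norm_le _ _
    rw [norm_one, norm_mul, Complex.norm_conj] at h6
    have := norm_nonneg z
    nlinarith
  exact div_le_div₀ (by positivity) h4 h1z h5

/-! ### Infinite products -/

lemma multipliable_of_summable {ι : Type} {f : ι → ℂ} (h : Summable fun i => ‖1 - f i‖) :
    Multipliable f := by
  have h1 : Summable fun i => ‖f i - 1‖ := by
    refine h.congr fun i => norm_sub_rev _ _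
  have := multipliable_one_add_of_summable h1
  simpa using this

lemma multipliable_factor {ι : Type} {a : ι → ℂ} (ha : ∀ i, a i ≠ 0 ∧ ‖a i‖ < 1)
    (hs : Summable fun i => 1 - ‖a i‖) {z : ℂ} (hz : ‖z‖ < 1) :
    Multipliable fun i => factor (a i) z := by
  refine multipliable_of_summable ?_
  refine Summable.of_nonneg_of_le (fun i => norm_nonneg _)
    (fun i => norm_one_sub_factor (ha i).1 (ha i).2 hz) (hs.mul_right _)

lemma norm_hasProd_le {ι : Type} {f : ι → ℂ} {p : ℂ} (h : HasProd f p) (hf : ∀ i, ‖f i‖ ≤ 1)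
    (s : Finset ι) : ‖p‖ ≤ ∏ i ∈ s, ‖f i‖ := by
  classical
  have h1 : Tendsto (fun t : Finset ι => ‖∏ i ∈ t, f i‖) atTop (𝓝 ‖p‖) :=
    (continuous_norm.tendsto p).comp h
  refine le_of_tendsto h1 (eventually_atTop.2 ⟨s, fun t hst => ?_⟩)
  rw [norm_prod, ← Finset.prod_sdiff hst]
  calc (∏ i ∈ t \ s, ‖f i‖) * ∏ i ∈ s, ‖f i‖ ≤ 1 * ∏ i ∈ s, ‖f i‖ := by
        refine mul_le_mul_of_nonneg_right ?_ (Finset.prod_nonneg fun i _ => norm_nonneg _)
        exact Finset.prod_le_one (fun i _ => norm_nonneg _) fun i _ => hf i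
    _ = _ := one_mul _

/-- A unimodular constant times a power of `z` times a product of Blaschke factors, over any
countable index type (possibly with no factor at all). -/
def Weak (f : ℂ → ℂ) : Prop :=
  ∃ (c : ℂ) (m : ℕ) (ι : Type) (_ : Countable ι) (a : ι → ℂ), ‖c‖ = 1 ∧
    (∀ i, a i ≠ 0 ∧ ‖a i‖ < 1) ∧ (Summable fun i => 1 - ‖a i‖) ∧
    ∀ z : ℂ, ‖z‖ < 1 → f z = c * z ^ m * ∏' i, factor (a i) z

lemma IsBlaschke.weak {f : ℂ → ℂ} (h : IsBlaschke f) : Weak f := by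
  obtain ⟨θ, m, N, a, h1, h2, -, h3⟩ := h
  exact ⟨_, m, _, inferInstance, a, Complex.norm_exp_ofReal_mul_I θ, h1, h2, h3⟩

lemma norm_lt_aux {c z : ℂ} {m : ℕ} {ι : Type} {a : ι → ℂ} (hc : ‖c‖ = 1)
    (ha : ∀ i, a i ≠ 0 ∧ ‖a i‖ < 1) (hs : Summable fun i => 1 - ‖a i‖) (hz : ‖z‖ < 1)
    (hn : m ≠ 0 ∨ Nonempty ι) : ‖c * z ^ m * ∏' i, factor (a i) z‖ < 1 := by
  have hp := (multipliable_factor ha hs hz).hasProd
  have hle : ∀ i, ‖factor (a i) z‖ ≤ 1 := fun i => (norm_factor (ha i).1 (ha i).2 hz).le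
  rw [norm_mul, norm_mul, hc, one_mul, norm_pow]
  rcases hn with hm | ⟨⟨i⟩⟩
  · have h1 := norm_hasProd_le hp hle ∅
    rw [Finset.prod_empty] at h1
    have h2 : ‖z‖ ^ m < 1 := pow_lt_one₀ (norm_nonneg _) hz hm
    have h3 : 0 ≤ ‖z‖ ^ m := by positivity
    have h4 : 0 ≤ ‖∏' i, factor (a i) z‖ := norm_nonneg _
    nlinarith
  · have h1 := norm_hasProd_le hp hle {i}
    rw [Finset.prod_singleton] at h1
    have h2 : ‖z‖ ^ m ≤ 1 := pow_le_one₀ (norm_nonneg _) hz.le
    have h3 : 0 ≤ ‖z‖ ^ m := by positivity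
    have h4 : 0 ≤ ‖∏' i, factor (a i) z‖ := norm_nonneg _
    have h5 := norm_factor (ha i).1 (ha i).2 hz
    nlinarith

/-- A Blaschke product maps the disk into itself. -/
lemma IsBlaschke.norm_lt {f : ℂ → ℂ} (h : IsBlaschke f) {z : ℂ} (hz : ‖z‖ < 1) : ‖f z‖ < 1 := by
  obtain ⟨θ, m, N, a, h1, h2, h3, h4⟩ := h
  rw [h4 z hz]
  refine norm_lt_aux (Complex.norm_exp_ofReal_mul_I θ) h1 h2 hz (h3.imp id fun hN => ?_)
  exact ⟨⟨0, by exact_mod_cast pos_iff_ne_zero.2 hN⟩⟩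

/-- Reindexing: a countable family is a finite or infinite sequence. -/
lemma exists_seq (ι : Type) [Countable ι] :
    ∃ (N : ℕ∞), Nonempty ({n : ℕ // (n : ℕ∞) < N} ≃ ι) := by
  rcases finite_or_infinite ι with h | h
  · obtain ⟨n, ⟨e⟩⟩ := Finite.exists_equiv_fin ι
    refine ⟨n, ⟨Equiv.trans ?_ e.symm⟩⟩
    refine Equiv.trans (Equiv.subtypeEquivRight fun k => ?_) Fin.equivSubtype.symm
    exact_mod_cast Iff.rfl
  · obtain ⟨e⟩ := nonempty_denumerable ι
    refine ⟨⊤, ⟨Equiv.trans (Equiv.subtypeUnivEquiv fun k => ?_) (Denumerable.eqv ι).symm⟩⟩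
    exact ENat.natCast_lt_top k

lemma Weak.isBlaschke {f : ℂ → ℂ} (h : Weak f) (h0 : ‖f 0‖ < 1) : IsBlaschke f := by
  obtain ⟨c, m, ι, hι, a, hc, h1, h2, h3⟩ := h
  obtain ⟨N, ⟨e⟩⟩ := exists_seq ι
  refine ⟨Complex.arg c, m, N, fun n => a (e n), fun n => h1 _, ?_, ?_, fun z hz => ?_⟩
  · exact (e.summable_iff (f := fun i => 1 - ‖a i‖)).2 h2
  · by_contra hcon
    push Not at hcon
    obtain ⟨rfl, rfl⟩ := hcon
    have : IsEmpty ι := e.symm.isEmpty_congr.2 ⟨fun x => absurd x.2 (by simp)⟩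
    rw [h3 0 (by simp)] at h0
    simp [hc] at h0
  · have h4 := Complex.norm_mul_exp_arg_mul_I c
    rw [hc, Complex.ofReal_one, one_mul] at h4
    rw [h3 z hz, h4, ← e.tprod_eq (fun i => factor (a i) z)]

lemma weak_const {c : ℂ} (hc : ‖c‖ = 1) : Weak fun _ => c :=
  ⟨c, 0, Empty, inferInstance, Empty.elim, hc, fun i => i.elim, summable_empty, fun z _ => by simp⟩

lemma Weak.mul {f g : ℂ → ℂ} (hf : Weak f) (hg : Weak g) : Weak fun z => f z * g z := by
  obtain ⟨c, m, ι, hι, a, hc, h1, h2, h3⟩ := hf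
  obtain ⟨c', m', ι', hι', a', hc', h1', h2', h3'⟩ := hg
  refine ⟨c * c', m + m', ι ⊕ ι', inferInstance, Sum.elim a a', by rw [norm_mul, hc, hc', one_mul],
    ?_, ?_, fun z hz => ?_⟩
  · rintro (i | i)
    · exact h1 i
    · exact h1' i
  · exact Summable.sum _ h2 h2'
  · have hp := (multipliable_factor h1 h2 hz).hasProd
    have hp' := (multipliable_factor h1' h2' hz).hasProd
    have h4 : HasProd (fun i : ι ⊕ ι' => factor (Sum.elim a a' i) z)
        ((∏' i, factor (a i) z) * ∏' i, factor (a' i) z) := HasProd.sum hp hp'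
    change f z * g z = _
    rw [h3 z hz, h3' z hz, h4.tprod_eq, pow_add]
    ring

lemma Weak.pow {f : ℂ → ℂ} (hf : Weak f) (m : ℕ) : Weak fun z => f z ^ m := by
  induction m with
  | zero => simpa using weak_const (c := 1) norm_one
  | succ m ih => simpa [pow_succ] using ih.mul hf

lemma Weak.congr {f g : ℂ → ℂ} (hf : Weak f) (h : ∀ z, ‖z‖ < 1 → g z = f z) : Weak g := by
  obtain ⟨c, m, ι, hι, a, hc, h1, h2, h3⟩ := hf
  exact ⟨c, m, ι, hι, a, hc, h1, h2, fun z hz => by rw [h z hz, h3 z hz]⟩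

/-- The product of the moduli of the zeros is at most `exp (-∑ (1 - |a_i|))`. -/
lemma tsum_le_neg_log {ι : Type} {a : ι → ℂ} (ha : ∀ i, a i ≠ 0 ∧ ‖a i‖ < 1)
    (hs : Summable fun i => 1 - ‖a i‖) {P : ℝ} (hP : 0 < P)
    (hPe : P ≤ ‖∏' i, factor (a i) 0‖) : ∑' i, (1 - ‖a i‖) ≤ -Real.log P := by
  have hp := (multipliable_factor ha hs (z := 0) (by simp)).hasProd
  have hle : ∀ i, ‖factor (a i) 0‖ ≤ 1 := fun i => (norm_factor (ha i).1 (ha i).2 (by simp)).le
  refine hs.tsum_le_of_sum_le fun s => ?_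
  have h1 := hPe.trans (norm_hasProd_le hp hle s)
  have h2 : ∏ i ∈ s, ‖factor (a i) 0‖ ≤ Real.exp (-∑ i ∈ s, (1 - ‖a i‖)) := by
    rw [← Finset.sum_neg_distrib, Real.exp_sum]
    refine Finset.prod_le_prod (fun i _ => norm_nonneg _) fun i _ => ?_
    rw [factor_zero (ha i).1, Complex.norm_real, norm_norm]
    have := Real.add_one_le_exp (-(1 - ‖a i‖))
    linarith
  have h3 := Real.log_le_log hP (h1.trans h2)
  rw [Real.log_exp] at h3
  linarith

/-- **Key fact.** If `B` is a Blaschke product and `C` is an indestructible Blaschke product, then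
`B ∘ C` is a Blaschke product. -/
theorem comp_isBlaschke {B C : ℂ → ℂ} (hB : IsBlaschke B) (hC : IsIndestructible C) :
    IsBlaschke fun z => B (C z) := by
  have hCd : ∀ {z : ℂ}, ‖z‖ < 1 → ‖C z‖ < 1 := fun hz => hC.1.norm_lt hz
  have h00 : ‖(0 : ℂ)‖ < 1 := by simp
  refine Weak.isBlaschke ?_ (hB.norm_lt (hCd h00))
  obtain ⟨cB, m, ι, hι, a, hcB, h1, h2, h3⟩ := hB.weak
  -- the factors
  have hfac : ∀ i : ι, IsBlaschke fun z => factor (a i) (C z) := by
    intro i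
    obtain ⟨φ, hφ⟩ := factor_eq_auto (h1 i).1
    have h4 := hC.2 φ (a i) (h1 i).2
    have h5 : (fun z => factor (a i) (C z)) = fun z => auto φ (a i) (C z) := by
      funext z
      exact hφ _
    rw [h5]
    exact h4
  choose τ k M α g1 g2 g3 g4 using hfac
  -- constants
  set c : ι → ℂ := fun i => Complex.exp (τ i * Complex.I) with hcdef
  have hc1 : ∀ i, ‖c i‖ = 1 := fun i => Complex.norm_exp_ofReal_mul_I (τ i)
  set c0 : ℝ := (1 + ‖C 0‖) / (1 - ‖C 0‖) with hc0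
  have hC0 := hCd h00
  have hc0pos : 0 < c0 := by
    have := norm_nonneg (C 0)
    exact div_pos (by linarith) (by linarith)
  set F : ι → ℂ := fun i => factor (a i) (C 0) with hF
  have hF1 : ∀ i, ‖1 - F i‖ ≤ (1 - ‖a i‖) * c0 := fun i =>
    norm_one_sub_factor (h1 i).1 (h1 i).2 hC0
  have hF0 : ∀ i, F i = c i * 0 ^ k i * ∏' j, factor (α i j) 0 := fun i => g4 i 0 h00
  -- for all but finitely many `i`
  have hsmall : ∀ᶠ i in cofinite, (1 - ‖a i‖) * c0 ≤ 1 / 2 := by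
    have := (h2.mul_right c0).tendsto_cofinite_zero
    exact this.eventually_le_const (by norm_num)
  have hnice : ∀ i, (1 - ‖a i‖) * c0 ≤ 1 / 2 →
      k i = 0 ∧ 1 / 2 ≤ ‖F i‖ ∧ F i = c i * ∏' j, factor (α i j) 0 := by
    intro i hi
    have e1 : 1 / 2 ≤ ‖F i‖ := by
      have e2 : ‖(1 : ℂ)‖ - ‖1 - F i‖ ≤ ‖1 - (1 - F i)‖ := norm_sub_norm_le _ _
      rw [norm_one, sub_sub_cancel] at e2
      linarith [hF1 i]
    have e2 : k i = 0 := by
      by_contra hk
      have e3 : F i = 0 := by rw [hF0 i, zero_pow hk]; ring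
      rw [e3, norm_zero] at e1
      linarith
    refine ⟨e2, e1, ?_⟩
    rw [hF0 i, e2, pow_zero, mul_one]
  -- the Blaschke condition for all the zeros together
  have hS : Summable fun p : Σ i : ι, {n : ℕ // (n : ℕ∞) < M i} => 1 - ‖α p.1 p.2‖ := by
    rw [summable_sigma_of_nonneg (fun p => by linarith [(g1 p.1 p.2).2])]
    refine ⟨fun i => g2 i, ?_⟩
    refine Summable.of_norm_bounded_eventually (g := fun i => 2 * ((1 - ‖a i‖) * c0))
      ((h2.mul_right c0).mul_left 2) ?_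
    filter_upwards [hsmall] with i hi
    obtain ⟨e1, e2, e3⟩ := hnice i hi
    rw [Real.norm_of_nonneg (tsum_nonneg fun j => by linarith [(g1 i j).2])]
    have e4 : ‖F i‖ = ‖∏' j, factor (α i j) 0‖ := by rw [e3, norm_mul, hc1, one_mul]
    have hpos : 0 < ‖F i‖ := by linarith
    have e5 := tsum_le_neg_log (g1 i) (g2 i) hpos e4.le
    have e6 : -Real.log ‖F i‖ ≤ 2 * (1 - ‖F i‖) := by
      have e7 := Real.log_le_sub_one_of_pos (inv_pos.2 hpos)
      rw [Real.log_inv] at e7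
      refine e7.trans ?_
      have e8 : ‖F i‖ < 1 := norm_factor (h1 i).1 (h1 i).2 hC0
      have e9 : ‖F i‖⁻¹ - 1 = (1 - ‖F i‖) * ‖F i‖⁻¹ := by
        field_simp
      rw [e9, mul_comm 2]
      refine mul_le_mul_of_nonneg_left ?_ (by linarith)
      rw [inv_le_comm₀ hpos (by norm_num)]
      linarith
    have e10 : 1 - ‖F i‖ ≤ ‖1 - F i‖ := by
      have := norm_sub_norm_le (1 : ℂ) (F i)
      rwa [norm_one] at this
    exact e5.trans (e6.trans (by linarith [hF1 i]))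
  -- the constants
  have hcm : Multipliable c := by
    refine multipliable_of_summable ?_
    refine Summable.of_norm_bounded_eventually (g := fun i => 4 * ((1 - ‖a i‖) * c0))
      ((h2.mul_right c0).mul_left 4) ?_
    filter_upwards [hsmall] with i hi
    obtain ⟨e1, e2, e3⟩ := hnice i hi
    rw [norm_norm]
    set P : ℂ := ∏' j, factor (α i j) 0 with hP
    have hPr : P = (‖P‖ : ℂ) := by
      have hp := (multipliable_factor (g1 i) (g2 i) h00).hasProd
      have hre : ∀ j, factor (α i j) 0 = ((‖α i j‖ : ℝ) : ℂ) := fun j => factor_zero (g1 i j).1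
      have hmem : P ∈ {w : ℂ | w = ((‖w‖ : ℝ) : ℂ)} := by
        have hcl : IsClosed {w : ℂ | w = ((‖w‖ : ℝ) : ℂ)} :=
          isClosed_eq continuous_id (Complex.continuous_ofReal.comp continuous_norm)
        refine hcl.mem_of_tendsto hp (Eventually.of_forall fun s => ?_)
        simp only [Set.mem_ofPred_eq, hre]
        rw [← Complex.ofReal_prod, Complex.norm_real, Real.norm_of_nonneg]
        exact Finset.prod_nonneg fun j _ => norm_nonneg _
      exact hmem
    have hPF : ‖F i‖ = ‖P‖ := by rw [e3, norm_mul, hc1, one_mul]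
    have hPpos : 1 / 2 ≤ ‖P‖ := hPF ▸ e2
    have e4 : (1 - c i) * P = (1 - F i) - (1 - P) := by rw [e3]; ring
    have e5 : ‖1 - P‖ ≤ ‖1 - F i‖ := by
      have hlt : ‖F i‖ < 1 := norm_factor (h1 i).1 (h1 i).2 hC0
      have e6 : ‖1 - P‖ = 1 - ‖F i‖ := by
        rw [hPr, ← Complex.ofReal_one, ← Complex.ofReal_sub, Complex.norm_real,
          Real.norm_of_nonneg (by linarith), hPF]
      rw [e6]
      have := norm_sub_norm_le (1 : ℂ) (F i)
      rwa [norm_one] at this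
    have e7 : ‖1 - c i‖ * ‖P‖ ≤ 2 * ((1 - ‖a i‖) * c0) := by
      rw [← norm_mul, e4]
      calc ‖(1 - F i) - (1 - P)‖ ≤ ‖1 - F i‖ + ‖1 - P‖ := norm_sub_le _ _
        _ ≤ 2 * ((1 - ‖a i‖) * c0) := by linarith [hF1 i]
    have e8 : 0 ≤ ‖1 - c i‖ := norm_nonneg _
    nlinarith
  have hcnorm : ‖∏' i, c i‖ = 1 := by
    have h4 : Tendsto (fun t : Finset ι => ‖∏ i ∈ t, c i‖) atTop (𝓝 ‖∏' i, c i‖) :=
      (continuous_norm.tendsto _).comp hcm.hasProd
    have h5 : (fun t : Finset ι => ‖∏ i ∈ t, c i‖) = fun _ => 1 := by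
      funext t
      rw [norm_prod]
      exact Finset.prod_eq_one fun i _ => hc1 i
    rw [h5] at h4
    exact tendsto_nhds_unique h4 tendsto_const_nhds
  -- the exponents
  have hkfin : {i | k i ≠ 0}.Finite := by
    refine (Filter.eventually_cofinite.1 hsmall).subset fun i hi => ?_
    intro hcon
    exact hi (hnice i hcon).1
  -- the infinite product
  have hW : Weak fun z => ∏' i, factor (a i) (C z) := by
    refine ⟨∏' i, c i, ∑ i ∈ hkfin.toFinset, k i, Σ i : ι, {n : ℕ // (n : ℕ∞) < M i}, inferInstance,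
      fun p => α p.1 p.2, hcnorm, fun p => g1 p.1 p.2, hS, fun z hz => ?_⟩
    have q1 := hcm.hasProd
    have q2 : HasProd (fun i => z ^ k i) (∏ i ∈ hkfin.toFinset, z ^ k i) := by
      refine hasProd_prod_of_ne_finset_one fun i hi => ?_
      have : k i = 0 := by simpa using hi
      rw [this, pow_zero]
    have q3 := (multipliable_factor (fun p : Σ i : ι, {n : ℕ // (n : ℕ∞) < M i} => g1 p.1 p.2) hS
      hz).hasProd
    have q4 := q3.sigma fun i => (multipliable_factor (g1 i) (g2 i) hz).hasProd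
    have q5 := (q1.mul q2).mul q4
    rw [Finset.prod_pow_eq_pow_sum] at q5
    rw [← q5.tprod_eq]
    exact tprod_congr fun i => g4 i z hz
  have hW' := ((weak_const hcB).mul ((hC.1.weak).pow m)).mul hW
  exact hW'.congr fun z hz => h3 (C z) (hCd hz)

/-- **Theorem.** If `B` and `C` are indestructible Blaschke products, then `B ∘ C` is an
indestructible Blaschke product. -/
theorem result (B C : ℂ → ℂ) (hB : IsIndestructible B) (hC : IsIndestructible C) :
    IsIndestructible fun z => B (C z) :=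
  ⟨comp_isBlaschke hB.1 hC,
    fun φ a ha => comp_isBlaschke (B := fun w => auto φ a (B w)) (hB.2 φ a ha) hC⟩

end Pool.Agent.Results.MP_4d1c53_an.IndestructibleComposition
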